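import Pool.Agent.H8.DI.Targets

/-!
Module OL of dik_modules: from linear orders to equivalence relations.
-/

set_option autoImplicit false

namespace Pool.Agent.H77.DI

open Pool.Agent.H16.TO Pool.Agent.H8.DI

/-- OL -/
theorem pf_ol (hCH : K_CH) (hCT : K_CT) (hCL : K_CL) : K_OL := by
  intro V Q _ U Hh Vv st E lt M S N N' hC hO
  obtain ⟨ch, hch⟩ := hCH V Q U Hh Vv st E lt M S N N' hC hO
  have h3 := hCT V Q U Hh Vv st E lt M S N N' ch hC hO hch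
  have h4 := hCL V Q U Hh Vv st E lt M S N N' ch hC hO hch h3
  refine ⟨fun x y => ch x = ch y, fun x y => lt x y ∧ N x y, ?_⟩
  exact
    { feq := ⟨fun x => rfl, fun h => h.symm, fun h g => h.trans g⟩
      blk := hch.blk
      own := fun y => by
        obtain ⟨x, h1, h2, _⟩ := hch.ex y 0 (Or.inl rfl)
        exact ⟨x, h1, h2⟩
      lin := fun j hj x hx => by
        obtain ⟨y, ⟨g1, g2, g3, g4⟩, g5⟩ := hO.lin j hj x hx
        refine ⟨y, ⟨h4 j hj x y hx g3 g4.symm g1 g2, ⟨g1, g2⟩, g3, g4⟩, ?_⟩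
        rintro z ⟨_, ⟨k1, k2⟩, k3, k4⟩
        exact g5 z ⟨k1, k2, k3, k4⟩
      lin' := fun j hj y hy => by
        obtain ⟨x, ⟨g1, g2, g3, g4⟩, g5⟩ := hO.lin' j hj y hy
        refine ⟨x, ⟨h4 j hj x y g3 hy g4 g1 g2, ⟨g1, g2⟩, g3, g4⟩, ?_⟩
        rintro z ⟨_, ⟨k1, k2⟩, k3, k4⟩
        exact g5 z ⟨k1, k2, k3, k4⟩
      ho := fun x y _ h => hO.ho x y h.1 h.2
      ve := fun x y _ h => hO.ve x y h.1 h.2 }

end Pool.Agent.H77.DI
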