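import Pool.Agent.H8.DI.Targets

/-!
Module PO of dik_modules: the size for a square.
-/

set_option autoImplicit false

namespace Pool.Agent.H77.DI

open Pool.Agent.H8.DI

theorem cnt_sq (N : ℕ) : cnt N N + N = 4 * N ^ 3 + N ^ 2 := by
  rcases Nat.eq_zero_or_pos N with h0 | hN
  · rw [h0]
    simp [cnt]
  obtain ⟨S, hS⟩ : ∃ S, S = ∑ x ∈ Finset.range N, x := ⟨_, rfl⟩
  have hS2 : 2 * S + N = N * N := by
    have h1 := Finset.sum_range_id_mul_two N
    rw [← hS] at h1
    obtain ⟨m, rfl⟩ : ∃ m, N = m + 1 := ⟨N - 1, by omega⟩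
    rw [Nat.add_sub_cancel] at h1
    nlinarith
  have hT : ∑ y ∈ Finset.range N, (y + 1) = S + N := by
    rw [Finset.sum_add_distrib, ← hS]
    simp
  have hpt : ∀ x y : ℕ, sz (x + 1) (y + 1) + ((if x = 0 then y + 1 else 0) +
      (if y = 0 then x + 1 else 0)) = 4 * x + 4 * y + 6 := by
    intro x y
    unfold sz
    by_cases hx : x = 0
    · by_cases hy : y = 0
      · simp [hx, hy]
      · simp [hx, hy]
        omega
    · by_cases hy : y = 0
      · simp [hx, hy]
        omega
      · simp [hx, hy]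
        omega
  have hsum : cnt N N + (∑ x ∈ Finset.range N, ∑ y ∈ Finset.range N,
      ((if x = 0 then y + 1 else 0) + (if y = 0 then x + 1 else 0))) =
      ∑ x ∈ Finset.range N, ∑ y ∈ Finset.range N, (4 * x + 4 * y + 6) := by
    unfold cnt
    rw [← Finset.sum_add_distrib]
    refine Finset.sum_congr rfl fun x _ => ?_
    rw [← Finset.sum_add_distrib]
    exact Finset.sum_congr rfl fun y _ => hpt x y
  have h1 : ∑ x ∈ Finset.range N, ∑ y ∈ Finset.range N, (if x = 0 then y + 1 else 0) = S + N := by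
    rw [Finset.sum_eq_single 0]
    · simp only [if_true]
      exact hT
    · intro x _ hx
      exact Finset.sum_eq_zero fun y _ => if_neg hx
    · intro h
      exact absurd (Finset.mem_range.2 hN) h
  have h2 : ∑ x ∈ Finset.range N, ∑ y ∈ Finset.range N, (if y = 0 then x + 1 else 0) = S + N := by
    rw [Finset.sum_comm]
    exact h1
  have h3 : ∑ x ∈ Finset.range N, ∑ y ∈ Finset.range N, (4 * x + 4 * y + 6) =
      8 * N * S + 6 * N * N := by
    have g1 : ∀ c : ℕ, ∑ y ∈ Finset.range N, c * y = c * S := by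
      intro c
      rw [← Finset.mul_sum, hS]
    have g2 : ∀ c : ℕ, ∑ _y ∈ Finset.range N, c = N * c := by
      intro c
      simp
    have e1 : ∀ x : ℕ, ∑ y ∈ Finset.range N, (4 * x + 4 * y + 6) = 4 * N * x + 4 * S + 6 * N := by
      intro x
      rw [Finset.sum_add_distrib, Finset.sum_add_distrib, g1, g2, g2]
      ring
    rw [Finset.sum_congr rfl fun x _ => e1 x, Finset.sum_add_distrib, Finset.sum_add_distrib,
      g1, g2, g2]
    ring
  have h4 : ∑ x ∈ Finset.range N, ∑ y ∈ Finset.range N,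
      ((if x = 0 then y + 1 else 0) + (if y = 0 then x + 1 else 0)) = (S + N) + (S + N) := by
    rw [Finset.sum_congr rfl fun x _ => Finset.sum_add_distrib, Finset.sum_add_distrib, h1, h2]
  rw [h4, h3] at hsum
  have h5 : 8 * N * S = 4 * N * (2 * S) := by ring
  have h6 : 4 * N * (2 * S + N) = 4 * N * (N * N) := by rw [hS2]
  have h7 : 4 * N * (2 * S + N) = 8 * N * S + 4 * N * N := by ring
  have h8 : 4 * N * (N * N) = 4 * N ^ 3 := by ring
  have h9 : N * N = N ^ 2 := by ring
  have h10 : 4 * N * N = 4 * N ^ 2 := by ring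
  have h11 : 6 * N * N = 6 * N ^ 2 := by ring
  rw [h7, h8, h10] at h6
  rw [h11] at hsum
  rw [h9] at hS2
  omega

/-- PO -/
theorem pf_po : K_PO := by
  have hp : ∀ N, pol N + N = 4 * N ^ 3 + N ^ 2 := by
    intro N
    unfold pol
    have : N ≤ 4 * N ^ 3 + N ^ 2 := by
      rcases Nat.eq_zero_or_pos N with h0 | hN
      · rw [h0]; simp
      · have : N ≤ N ^ 2 := Nat.le_self_pow two_ne_zero N
        omega
    omega
  have hmono : ∀ M N, M < N → pol M < pol N := by
    intro M N h
    have h1 := hp M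
    have h2 := hp N
    have h3 : M ^ 3 ≤ N ^ 3 := Nat.pow_le_pow_left h.le 3
    have h4 : (M + 1) ^ 2 ≤ N ^ 2 := Nat.pow_le_pow_left h 2
    have h5 : (M + 1) ^ 3 ≤ N ^ 3 := Nat.pow_le_pow_left h 3
    have h6 : M ^ 2 + (N - M) ≤ N ^ 2 := by
      obtain ⟨d, rfl⟩ : ∃ d, N = M + d := ⟨N - M, by omega⟩
      have : 1 ≤ d := by omega
      rw [Nat.add_sub_cancel_left]
      nlinarith
    have h7 : M ^ 3 + 1 ≤ (M + 1) ^ 3 := by nlinarith [Nat.zero_le M]
    omega
  refine ⟨cnt_sq, fun N => ?_, fun N => ?_, fun M N h => ?_⟩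
  · have h1 := cnt_sq N
    have h2 := hp N
    omega
  · have h2 := hp N
    rcases Nat.eq_zero_or_pos N with h0 | hN
    · rw [h0]; exact Nat.zero_le _
    · have h3 : N ≤ N ^ 3 := Nat.le_self_pow three_ne_zero N
      omega
  · rcases lt_trichotomy M N with h1 | h1 | h1
    · exact absurd h (hmono M N h1).ne
    · exact h1
    · exact absurd h (hmono N M h1).ne'

end Pool.Agent.H77.DI
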