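import Pool.Agent.H8.DI.Targets

/-!
Module RF of dik_modules: forest orders which are linear orders.
-/

set_option autoImplicit false

namespace Pool.Agent.H77.DI

open Pool.Agent.H16.TO Pool.Agent.H8.DI

/-- The relation with the number `j` is total. -/
def tot (j : ℕ) : C2 :=
  .neg (.and (.neg (.eq false true)) (.and (.neg (.bi j false true)) (.neg (.bi j true false))))

theorem tot_sat {A : Type} (P : ℕ → A → Prop) (R : ℕ → A → A → Prop) (j : ℕ) :
    (∀ s : Bool → A, (tot j).Sat P R s) ↔ ∀ x y : A, x = y ∨ R j x y ∨ R j y x := by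
  constructor
  · intro h x y
    have h1 := h (fun b => if b then y else x)
    simp only [tot, C2.Sat, if_true, Bool.false_eq_true, if_false] at h1
    tauto
  · intro h s
    have h1 := h (s false) (s true)
    simp only [tot, C2.Sat]
    tauto

open Classical in
theorem rf_aux (τ : ℕ → Kd) (φ : C2) (m : ℕ) : ∃ φ' : C2, ∀ (A : Type) (P : ℕ → A → Prop)
    (R : ℕ → A → A → Prop), (∀ s : Bool → A, φ'.Sat P R s) ↔ (∀ s : Bool → A, φ.Sat P R s) ∧
      ∀ j < m, τ j = Kd.tree → ∀ x y : A, x = y ∨ R j x y ∨ R j y x := by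
  induction m with
  | zero => exact ⟨φ, fun A P R => ⟨fun h => ⟨h, fun j hj => absurd hj (Nat.not_lt_zero j)⟩,
      fun h => h.1⟩⟩
  | succ m ih =>
    obtain ⟨φ', h⟩ := ih
    by_cases hm : τ m = Kd.tree
    · refine ⟨.and φ' (tot m), fun A P R => ?_⟩
      have h1 : (∀ s : Bool → A, (C2.and φ' (tot m)).Sat P R s) ↔
          (∀ s : Bool → A, φ'.Sat P R s) ∧ ∀ s : Bool → A, (tot m).Sat P R s :=
        ⟨fun g => ⟨fun s => (g s).1, fun s => (g s).2⟩, fun g s => ⟨g.1 s, g.2 s⟩⟩
      rw [h1, h A P R, tot_sat]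
      constructor
      · rintro ⟨⟨g1, g2⟩, g3⟩
        refine ⟨g1, fun j hj => ?_⟩
        rcases Nat.lt_succ_iff_lt_or_eq.1 hj with h2 | h2
        · exact g2 j h2
        · subst h2
          exact fun _ => g3
      · rintro ⟨g1, g2⟩
        exact ⟨⟨g1, fun j hj => g2 j (Nat.lt_succ_of_lt hj)⟩, g2 m (Nat.lt_succ_self m) hm⟩
    · refine ⟨φ', fun A P R => ?_⟩
      rw [h A P R]
      constructor
      · rintro ⟨g1, g2⟩
        refine ⟨g1, fun j hj => ?_⟩
        rcases Nat.lt_succ_iff_lt_or_eq.1 hj with h2 | h2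
        · exact g2 j h2
        · subst h2
          exact fun h3 => absurd h3 hm
      · rintro ⟨g1, g2⟩
        exact ⟨g1, fun j hj => g2 j (Nat.lt_succ_of_lt hj)⟩

theorem ord_iff {A : Type} (r : A → A → Prop) : IsK Kd.ord r ↔
    IsK Kd.tree r ∧ ∀ x y : A, x = y ∨ r x y ∨ r y x := by
  constructor
  · intro h
    have h0 : IsStrictTotalOrder A r := h
    have h1 : ∀ x y : A, x = y ∨ r x y ∨ r y x := by
      intro x y
      by_cases h2 : r x y
      · exact Or.inr (Or.inl h2)
      · by_cases h3 : r y x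
        · exact Or.inr (Or.inr h3)
        · exact Or.inl (h0.trichotomous x y h2 h3)
    exact ⟨⟨h0.irrefl, h0.trans, fun a b c _ _ => h1 a b⟩, h1⟩
  · rintro ⟨⟨h1, h2, _⟩, h4⟩
    have : IsStrictTotalOrder A r :=
      { trichotomous := fun a b g1 g2 => by
          rcases h4 a b with h | h | h
          · exact h
          · exact absurd h g1
          · exact absurd h g2
        irrefl := h1
        trans := h2 }
    exact this

/-- RF -/
theorem pf_rf : K_RF := by
  intro l τ φ
  obtain ⟨φ', h⟩ := rf_aux τ φ l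
  refine ⟨φ', Set.ext fun n => ?_⟩
  simp only [specK, Set.mem_ofPred_eq]
  refine and_congr_right fun _ => exists_congr fun P => exists_congr fun R => ?_
  rw [h (Fin n) P R]
  constructor
  · rintro ⟨g1, g2, g3⟩
    refine ⟨fun j hj => ?_, g2⟩
    by_cases hm : τ j = Kd.tree
    · rw [if_pos hm, ord_iff]
      have := g1 j hj
      rw [hm] at this
      exact ⟨this, g3 j hj hm⟩
    · rw [if_neg hm]
      exact g1 j hj
  · rintro ⟨g1, g2⟩
    refine ⟨fun j hj => ?_, g2, fun j hj hm => ?_⟩
    · have h1 := g1 j hj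
      by_cases hm : τ j = Kd.tree
      · rw [if_pos hm, ord_iff] at h1
        rw [hm]
        exact h1.1
      · rw [if_neg hm] at h1
        exact h1
    · have h1 := g1 j hj
      rw [if_pos hm, ord_iff] at h1
      exact h1.2

end Pool.Agent.H77.DI
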